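import Mathlib
import Pool.Agent.TH126.GQ.Singer

set_option autoImplicit false

/-!
Linear algebra: elementary abelian groups of unipotent maps, transitivity.
-/

namespace Pool.Agent.TH431.GQ

section Lin

variable {F V : Type} [Field F] [AddCommGroup V] [Module F V]

/-- automorphisms which are the identity on `M` and modulo `M` -/
def Ab (M : Submodule F V) : Set (V ≃ₗ[F] V) := {g | (∀ w, g w - w ∈ M) ∧ ∀ s ∈ M, g s = s}

theorem ab_pow {M : Submodule F V} {g : V ≃ₗ[F] V} (hg : g ∈ Ab M) (n : ℕ) (w : V) :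
    (g ^ n) w = w + n • (g w - w) := by
  induction n with
  | zero => simp
  | succ n ih =>
    rw [pow_succ', LinearEquiv.mul_apply, ih, map_add, map_nsmul, hg.2 _ (hg.1 w), succ_nsmul]
    abel

theorem ab_pow_p {M : Submodule F V} {g : V ≃ₗ[F] V} (hg : g ∈ Ab M) (p : ℕ) [CharP F p] :
    g ^ p = 1 := by
  ext w
  rw [ab_pow hg]
  have : (p : ℕ) • (g w - w) = ((p : ℕ) : F) • (g w - w) := by
    rw [Nat.cast_smul_eq_nsmul]
  rw [this, CharP.cast_eq_zero, zero_smul, add_zero]
  rfl

theorem ab_comm {M : Submodule F V} {g h : V ≃ₗ[F] V} (hg : g ∈ Ab M) (hh : h ∈ Ab M) :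
    g * h = h * g := by
  ext w
  rw [LinearEquiv.mul_apply, LinearEquiv.mul_apply]
  have h1 : g (h w) = g w + (h w - w) := by
    have : h w = w + (h w - w) := by abel
    conv_lhs => rw [this, map_add, hg.2 _ (hh.1 w)]
  have h2 : h (g w) = h w + (g w - w) := by
    have : g w = w + (g w - w) := by abel
    conv_lhs => rw [this, map_add, hh.2 _ (hg.1 w)]
  rw [h1, h2]
  abel

theorem ab_conj {M : Submodule F V} {g b : V ≃ₗ[F] V} (hg : ∀ x, g x ∈ M ↔ x ∈ M)
    (hb : b ∈ Ab M) : g⁻¹ * b * g ∈ Ab M := by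
  have hinv : ∀ x, g (g⁻¹ x) = x := fun x => by
    rw [← LinearEquiv.mul_apply, mul_inv_cancel]; rfl
  have hinv' : ∀ x, g⁻¹ (g x) = x := fun x => by
    rw [← LinearEquiv.mul_apply, inv_mul_cancel]; rfl
  constructor
  · intro w
    rw [LinearEquiv.mul_apply, LinearEquiv.mul_apply]
    have : g⁻¹ (b (g w)) - w = g⁻¹ (b (g w) - g w) := by rw [map_sub, hinv']
    rw [this, ← hg, hinv]
    exact hb.1 _
  · intro s hs
    rw [LinearEquiv.mul_apply, LinearEquiv.mul_apply, hb.2 _ ((hg s).2 hs), hinv']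

/-- `1 + φ` for `φ² = 0` -/
def oneAdd (φ : V →ₗ[F] V) (h : ∀ w, φ (φ w) = 0) : V ≃ₗ[F] V :=
  LinearEquiv.ofLinearMap (LinearMap.id + φ) (LinearMap.id - φ)
    (by ext w; simp [h]) (by ext w; simp [h])

/-- if `W`, `W'` are both complementary to `R` modulo the same `W ⊓ R`, some map in `Ab R`
takes `W` to `W'` -/
theorem trans_ab [FiniteDimensional F V] {R W W' : Submodule F V} (h1 : W ⊔ R = ⊤)
    (h2 : W' ⊔ R = ⊤) (h3 : W ⊓ R = W' ⊓ R) (h4 : Module.finrank F W = Module.finrank F W') :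
    ∃ b ∈ Ab R, W.map (b : V →ₗ[F] V) = W' := by
  have key : ∀ U : Submodule F V, U ⊔ R = ⊤ → ∃ X : Submodule F V, IsCompl X R ∧ X ≤ U ∧
      X ⊔ (U ⊓ R) = U := by
    intro U hU
    obtain ⟨X, hX1, hX2⟩ := IsModularLattice.exists_disjoint_and_sup_eq (inf_le_left : U ⊓ R ≤ U)
    have hXU : X ≤ U := hX2 ▸ le_sup_right
    refine ⟨X, ⟨?_, ?_⟩, hXU, by rw [sup_comm]; exact hX2⟩
    · rw [disjoint_iff, ← le_bot_iff, ← disjoint_iff.1 hX1]
      exact le_inf (le_inf (inf_le_left.trans hXU) inf_le_right) inf_le_left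
    · rw [codisjoint_iff, ← hU]
      apply le_antisymm
      · exact sup_le_sup_right hXU R
      · refine sup_le ?_ le_sup_right
        calc U = (U ⊓ R) ⊔ X := hX2.symm
          _ ≤ R ⊔ X := sup_le_sup_right inf_le_right _
          _ = X ⊔ R := sup_comm _ _
  obtain ⟨X, hX, hXW, hXs⟩ := key W h1
  obtain ⟨X', hX', hXW', hXs'⟩ := key W' h2
  set π := X.projection R hX with hπ
  set π' := X'.projection R hX' with hπ'
  have e1 : ∀ w, w - π w ∈ R := by
    intro w
    rw [hπ, ← Submodule.projection_eq_self_sub_projection hX]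
    exact Submodule.projection_apply_mem _ _
  have e2 : ∀ w, w - π' w ∈ R := by
    intro w
    rw [hπ', ← Submodule.projection_eq_self_sub_projection hX']
    exact Submodule.projection_apply_mem _ _
  have e3 : ∀ r ∈ R, π r = 0 := fun r hr => (Submodule.projection_apply_eq_zero_iff hX).2 hr
  have e4 : ∀ r ∈ R, π' r = 0 := fun r hr => (Submodule.projection_apply_eq_zero_iff hX').2 hr
  have e5 : ∀ w, π' w - π w ∈ R := by
    intro w
    have := R.sub_mem (e1 w) (e2 w)
    rwa [sub_sub_sub_cancel_left] at this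
  let b : V ≃ₗ[F] V := oneAdd (π' - π) (fun w => by
    have h5 := e5 w
    rw [LinearMap.sub_apply, LinearMap.sub_apply, e3 _ h5, e4 _ h5, sub_zero])
  have hb : ∀ w, b w = w + (π' w - π w) := fun w => rfl
  refine ⟨b, ⟨fun w => ?_, fun r hr => ?_⟩, ?_⟩
  · rw [hb]
    simpa using e5 w
  · rw [hb, e3 r hr, e4 r hr]
    simp
  · apply Submodule.eq_of_le_of_finrank_eq
    · rintro _ ⟨w, hw, rfl⟩
      rw [SetLike.mem_coe, ← hXs, Submodule.mem_sup] at hw
      obtain ⟨x, hx, s, hs, rfl⟩ := hw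
      have h5 : π x = x := Submodule.projection_apply_of_mem_left hX hx
      have h6 : s ∈ R := hs.2
      have h7 : b (x + s) = π' x + s := by
        rw [hb, map_add, map_add, h5, e3 s h6, e4 s h6]
        abel
      have h8 : s ∈ W' := by
        rw [h3] at hs
        exact hs.1
      show b (x + s) ∈ W'
      rw [h7]
      exact W'.add_mem (hXW' (Submodule.projection_apply_mem _ _)) h8
    · rw [← h4]
      exact (b.finrank_map_eq W)

theorem trans_sub {M : Submodule F V} {x y : V} (hx : x ∉ M) (hxy : y - x ∈ M) :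
    ∃ a ∈ Ab M, a x = y := by
  obtain ⟨ℓ, hℓ, hM⟩ := Submodule.exists_le_ker_of_notMem hx
  set v := (ℓ x)⁻¹ • (y - x) with hv
  have hvM : v ∈ M := M.smul_mem _ hxy
  have hℓv : ℓ v = 0 := hM hvM
  let a : V ≃ₗ[F] V := oneAdd (ℓ.smulRight v) (fun w => by simp [hℓv])
  have ha : ∀ w, a w = w + ℓ w • v := fun w => rfl
  refine ⟨a, ⟨fun w => ?_, fun s hs => ?_⟩, ?_⟩
  · rw [ha]
    simpa using M.smul_mem _ hvM
  · have : ℓ s = 0 := hM hs
    rw [ha, this]
    simp
  · rw [ha, hv, smul_smul, mul_inv_cancel₀ hℓ, one_smul]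
    abel

/-- an automorphism that is the identity modulo `R` and on `S`, and generates a transitive group
on the non-zero vectors of `R / S` -/
theorem exists_c [Finite F] [FiniteDimensional F V] {R S : Submodule F V} (hSR : S ≤ R) :
    ∃ c : V ≃ₗ[F] V, (∀ w, c w - w ∈ R) ∧ (∀ s ∈ S, c s = s) ∧
      ∀ x ∈ R, ∀ y ∈ R, x ∉ S → y ∉ S → ∃ j : ℕ, (c ^ j) x - y ∈ S := by
  obtain ⟨L, hL1, hL2⟩ := IsModularLattice.exists_disjoint_and_sup_eq hSR
  obtain ⟨X, hX⟩ := exists_isCompl R
  have hLR : L ≤ R := hL2 ▸ le_sup_right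
  have hM : IsCompl L (S ⊔ X) := by
    constructor
    · rw [Submodule.disjoint_def]
      intro x hxL hxM
      obtain ⟨s, hs, t, ht, rfl⟩ := Submodule.mem_sup.1 hxM
      have h1 : t ∈ R := by
        have := R.sub_mem (hLR hxL) (hSR hs)
        simpa using this
      have h2 : t = 0 := (Submodule.disjoint_def.1 hX.disjoint) t h1 ht
      subst h2
      have h3 : s + 0 ∈ S := by simpa using hs
      exact (Submodule.disjoint_def.1 hL1) _ h3 hxL
    · rw [codisjoint_iff, ← sup_assoc, sup_comm L S, hL2, codisjoint_iff.1 hX.codisjoint]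
  obtain ⟨σ, hσ⟩ := Pool.Agent.TH126.GQ.singer F L
  let e := Submodule.prodEquivOfIsCompl L (S ⊔ X) hM
  let c : V ≃ₗ[F] V := e.symm.trans ((σ.prodCongr (LinearEquiv.refl F _)).trans e)
  have hc : ∀ (l : L) (m : V) (hm : m ∈ S ⊔ X), c ((l : V) + m) = (σ l : V) + m := by
    intro l m hm
    have h1 : (l : V) + m = e (l, ⟨m, hm⟩) := rfl
    show e ((σ.prodCongr (LinearEquiv.refl F _)) (e.symm ((l : V) + m))) = _
    rw [h1, LinearEquiv.symm_apply_apply]
    rfl
  have hcj : ∀ (j : ℕ) (l : L) (m : V) (hm : m ∈ S ⊔ X),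
      (c ^ j) ((l : V) + m) = ((σ ^ j) l : V) + m := by
    intro j
    induction j with
    | zero => intro l m hm; rfl
    | succ j ih =>
      intro l m hm
      rw [pow_succ', LinearEquiv.mul_apply, ih l m hm, hc _ m hm, pow_succ', LinearEquiv.mul_apply]
  have hdec : ∀ w : V, ∃ (l : L) (m : V), m ∈ S ⊔ X ∧ w = (l : V) + m := by
    intro w
    have : w ∈ L ⊔ (S ⊔ X) := by rw [codisjoint_iff.1 hM.codisjoint]; trivial
    obtain ⟨l, hl, m, hm, rfl⟩ := Submodule.mem_sup.1 this
    exact ⟨⟨l, hl⟩, m, hm, rfl⟩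
  refine ⟨c, ?_, ?_, ?_⟩
  · intro w
    obtain ⟨l, m, hm, rfl⟩ := hdec w
    rw [hc l m hm]
    have : ((σ l : L) : V) + m - (l + m) = (σ l : V) - l := by abel
    rw [this]
    exact R.sub_mem (hLR (σ l).2) (hLR l.2)
  · intro s hs
    have := hc 0 s (Submodule.mem_sup_left hs)
    simpa using this
  · intro x hx y hy hxS hyS
    rw [← hL2] at hx hy
    obtain ⟨s, hs, l, hl, rfl⟩ := Submodule.mem_sup.1 hx
    obtain ⟨s', hs', l', hl', rfl⟩ := Submodule.mem_sup.1 hy
    have hl0 : (⟨l, hl⟩ : L) ≠ 0 := by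
      intro h
      have : l = 0 := congrArg Subtype.val h
      exact hxS (by rw [this, add_zero]; exact hs)
    have hl0' : (⟨l', hl'⟩ : L) ≠ 0 := by
      intro h
      have : l' = 0 := congrArg Subtype.val h
      exact hyS (by rw [this, add_zero]; exact hs')
    obtain ⟨j, hj⟩ := hσ _ _ hl0 hl0'
    refine ⟨j, ?_⟩
    have h1 := hcj j ⟨l, hl⟩ s (Submodule.mem_sup_left hs)
    rw [hj] at h1
    have h2 : (c ^ j) (s + l) = l' + s := by
      rw [add_comm s l]; exact h1
    rw [h2]
    have : l' + s - (s' + l') = s - s' := by abel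
    rw [this]
    exact S.sub_mem hs hs'

/-- there are at least `q ^ (a * b)` complements of a subspace of dimension `a` and
codimension `b` -/
theorem card_compl [Finite F] [FiniteDimensional F V] (R : Submodule F V) (k : ℕ)
    (hk : Module.finrank F R + k = Module.finrank F V) :
    Nat.card F ^ (k * (Module.finrank F V - k)) ≤
      Nat.card {W : Submodule F V // IsCompl R W} := by
  have : Finite V := Module.finite_of_finite F
  have h1 : Module.finrank F R = Module.finrank F V - k := by omega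
  have h2 : Module.finrank F (V ⧸ R) = k := by
    have := Submodule.finrank_quotient_add_finrank R
    omega
  have h3 : Nat.card ((V ⧸ R) →ₗ[F] R) = Nat.card F ^ (k * (Module.finrank F V - k)) := by
    rw [Module.natCard_eq_pow_finrank (K := F), Module.finrank_linearMap, h1, h2]
  rw [← h3, Nat.card_congr (Submodule.isComplEquivProj R)]
  obtain ⟨X, hX⟩ := exists_isCompl R
  have : Finite {f : V →ₗ[F] R // ∀ x : R, f x = x} := by
    have : Finite (V →ₗ[F] R) := by
      have : Finite (V → R) := inferInstance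
      exact Finite.of_injective (fun f : V →ₗ[F] R => (f : V → R)) DFunLike.coe_injective
    infer_instance
  refine Nat.card_le_card_of_injective (fun φ => ⟨R.projectionOnto X hX + φ.comp R.mkQ, ?_⟩) ?_
  · intro x
    have : (Submodule.Quotient.mk (x : V) : V ⧸ R) = 0 := (Submodule.Quotient.mk_eq_zero R).2 x.2
    simp [this]
  · intro φ ψ h
    have h4 : R.projectionOnto X hX + φ.comp R.mkQ = R.projectionOnto X hX + ψ.comp R.mkQ :=
      congrArg Subtype.val h
    have h5 := add_left_cancel h4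
    refine LinearMap.ext fun z => ?_
    obtain ⟨w, rfl⟩ := R.mkQ_surjective z
    exact LinearMap.congr_fun h5 w

end Lin

end Pool.Agent.TH431.GQ
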