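import Mathlib
import Pool.Agent.H98R2.Ev.T8

set_option autoImplicit false

/-!
Topological criterion for decision trees: a p-group given by a list of permutations of order `p`,
each normalising (on fixed sets) the later ones in the list, and a further permutation `c`.
-/

namespace Pool.Agent.TH431.GQ

open Finset Pool.Agent.H98R2.Ev

section Crit

variable {E : Type} [DecidableEq E]

/-- `S` is fixed by all members of the list -/
def Fx (l : List (Equiv.Perm E)) (S : Finset E) : Prop := ∀ a ∈ l, S.map a.toEmbedding = S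

/-- every member of the list has order `p` and maps sets fixed by the later members to such sets -/
inductive Nrm (p : ℕ) : List (Equiv.Perm E) → Prop
  | nil : Nrm p []
  | cons (a : Equiv.Perm E) (l : List (Equiv.Perm E)) (hl : Nrm p l) (ha : a ^ p = 1)
      (h : ∀ S, Fx l S → Fx l (S.map a.toEmbedding)) : Nrm p (a :: l)

theorem mem_fixIn' {X : Type} [DecidableEq X] [PartialOrder X] (Q : Finset X) (g : X → X) (x : X) :
    x ∈ fixIn Q g ↔ x ∈ Q ∧ g x = x := Finset.mem_filter

theorem crit [Fintype E] (A : Finset E) (D : Finset E → Prop)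
    (hdown : ∀ S T, S ⊆ T → T ⊆ A → D T → D S)
    (hne : NE A D) (h0 : D ∅) (p : ℕ) [Fact p.Prime] (l : List (Equiv.Perm E)) (hl : Nrm p l)
    (c : Equiv.Perm E) (hA : ∀ a ∈ c :: l, A.map a.toEmbedding = A)
    (hD : ∀ a ∈ c :: l, ∀ S, S ⊆ A → D S → D (S.map a.toEmbedding))
    (hc : ∀ S, Fx l S → Fx l (S.map c.toEmbedding)) :
    ∃ S, S ⊆ A ∧ S.Nonempty ∧ D S ∧ Fx (c :: l) S := by
  classical
  have hmem : ∀ S : Finset E, S ∈ faces A D ↔ S ⊆ A ∧ S.Nonempty ∧ D S := by
    intro S
    simp [faces]
  have hst : ∀ a ∈ c :: l, ∀ S, S ∈ faces A D → S.map a.toEmbedding ∈ faces A D := by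
    intro a ha S hS
    rw [hmem] at hS ⊢
    refine ⟨?_, (Finset.map_nonempty).2 hS.2.1, hD a ha S hS.1 hS.2.2⟩
    rw [← hA a ha]
    exact Finset.map_subset_map.2 hS.1
  have hAc : Acyc (ZMod p) (faces A D) := by
    rcases ne_acyc (F := ZMod p) A D hdown hne with h | h
    · exact absurd h0 (h ∅ (empty_subset _))
    · exact h
  have hJ : ∀ l' : List (Equiv.Perm E), Nrm p l' → (∀ a ∈ l', a ∈ c :: l) →
      Acyc (ZMod p) ((faces A D).filter (fun S => Fx l' S)) := by
    intro l' hl'
    induction hl' with
    | nil => intro _; simpa [Fx] using hAc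
    | cons a l' hl' ha h ih =>
      intro hsub
      have h1 := smith p _ (ih (fun b hb => hsub b (List.mem_cons_of_mem _ hb))) (act a) (by
        intro S hS
        rw [Finset.mem_filter] at hS ⊢
        rw [act_apply]
        exact ⟨hst a (hsub a List.mem_cons_self) S hS.1, h S hS.2⟩) (by
        intro S
        rw [act_iter, ha, map_one_perm])
      convert h1 using 1
      ext S
      rw [mem_fixIn', act_apply, Finset.mem_filter, Finset.mem_filter]
      simp only [Fx, List.mem_cons, forall_eq_or_imp]
      tauto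
  have hP := hJ l hl (fun a ha => List.mem_cons_of_mem _ ha)
  have hL := lefschetz p _ hP (act c) (by
    intro S hS
    rw [Finset.mem_filter] at hS ⊢
    rw [act_apply]
    exact ⟨hst c List.mem_cons_self S hS.1, hc S hS.2⟩)
  by_contra hno
  have hemp : fixIn ((faces A D).filter (fun S => Fx l S)) (act c) = ∅ := by
    rw [Finset.eq_empty_iff_forall_notMem]
    intro S hS
    rw [mem_fixIn', act_apply, Finset.mem_filter] at hS
    obtain ⟨⟨h1, h2⟩, h3⟩ := hS
    rw [hmem] at h1
    refine hno ⟨S, h1.1, h1.2.1, h1.2.2, ?_⟩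
    intro a ha
    rcases List.mem_cons.1 ha with rfl | ha
    · exact h3
    · exact h2 a ha
  rw [hemp] at hL
  have h2 : (univ.filter (fun σ : Finset (Finset E) => Ch (∅ : Finset (Finset E)) σ)) = {∅} := by
    ext σ
    simp only [Ch, Finset.mem_filter, Finset.mem_univ, true_and, Finset.subset_empty,
      Finset.mem_singleton]
    constructor
    · exact fun h => h.1
    · rintro rfl
      exact ⟨rfl, by simp⟩
  rw [h2] at hL
  simp at hL

end Crit

end Pool.Agent.TH431.GQ
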