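import Mathlib
import Pool.Agent.TH431.GQ.Topo

set_option autoImplicit false

/-!
Decision trees of depth at most `k` (in the words of the frozen statement) and the topological
criterion: a monotone function computed by a tree of small depth does not see large orbits.
-/

namespace Pool.Agent.TH431.GQ

open Finset Pool.Agent.H98R2.Ev

section Tree

variable {E : Type} [DecidableEq E]

/-- `f` is computed by a decision tree of depth at most `k`: every predicate closed under the
formation of decision trees holds for it. -/
def DepthLe (k : ℕ) (f : (E → Bool) → Bool) : Prop :=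
  ∀ P : ℕ → ((E → Bool) → Bool) → Prop,
    (∀ (m : ℕ) (g : (E → Bool) → Bool), (∀ x y, g x = g y) → P m g) →
    (∀ (m : ℕ) (g : (E → Bool) → Bool) (i : E),
       P m (fun x => g (Function.update x i false)) →
       P m (fun x => g (Function.update x i true)) → P (m + 1) g) →
    P k f

/-- the input which is `S` on `A` and `z` elsewhere -/
def mix (A : Finset E) (z : E → Bool) (S : Finset E) : E → Bool :=
  fun e => if e ∈ A then decide (e ∈ S) else z e

theorem ne_congr {A : Finset E} {D D' : Finset E → Prop} (h : NE A D)
    (hh : ∀ S, S ⊆ A → (D S ↔ D' S)) : NE A D' := by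
  induction h generalizing D' with
  | const A D hA h =>
    refine NE.const A D' hA ?_
    rcases h with h | h
    · exact Or.inl fun S hS => (hh S hS).1 (h S hS)
    · exact Or.inr fun S hS h' => h S hS ((hh S hS).2 h')
  | node A D x hx h0 h1 ih0 ih1 =>
    refine NE.node A D' x hx (ih0 fun S hS => hh S (hS.trans (erase_subset _ _))) (ih1 ?_)
    intro S hS
    exact hh _ (insert_subset hx (hS.trans (erase_subset _ _)))

theorem ne_of_depth {k : ℕ} {f : (E → Bool) → Bool} (h : DepthLe k f) :
    ∀ A : Finset E, k < A.card → ∀ z : E → Bool, NE A (fun S => f (mix A z S) = false) := by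
  refine h (fun m g => ∀ A : Finset E, m < A.card → ∀ z : E → Bool,
    NE A (fun S => g (mix A z S) = false)) ?_ ?_
  · intro m g hg A hA z
    refine NE.const A _ (card_pos.1 (by omega)) ?_
    cases hb : g z with
    | false => exact Or.inl fun S _ => (hg _ z).trans hb
    | true =>
      refine Or.inr fun S _ h' => ?_
      rw [hg _ z, hb] at h'
      exact absurd h' (by simp)
  · intro m g i h0 h1 A hA z
    by_cases hi : i ∈ A
    · have hc : m < (A.erase i).card := by rw [card_erase_of_mem hi]; omega
      refine NE.node A _ i hi (ne_congr (h0 _ hc z) ?_) (ne_congr (h1 _ hc z) ?_)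
      · intro S hS
        have : Function.update (mix (A.erase i) z S) i false = mix A z S := by
          funext e
          by_cases he : e = i
          · subst he
            have : e ∉ S := fun h => absurd (hS h) (by simp)
            simp [mix, hi, this]
          · simp [mix, he]
        simp only [this]
      · intro S hS
        have : Function.update (mix (A.erase i) z S) i true = mix A z (insert i S) := by
          funext e
          by_cases he : e = i
          · subst he
            simp [mix, hi]
          · simp [mix, he]
        simp only [this]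
    · have hm : ∀ S, mix A z S i = z i := fun S => by simp [mix, hi]
      have hu : ∀ S, Function.update (mix A z S) i (z i) = mix A z S := fun S => by
        rw [← hm S, Function.update_eq_self]
      cases hz : z i with
      | false =>
        refine ne_congr (h0 A (by omega) z) fun S _ => ?_
        have := hu S
        rw [hz] at this
        simp only [this]
      | true =>
        refine ne_congr (h1 A (by omega) z) fun S _ => ?_
        have := hu S
        rw [hz] at this
        simp only [this]

/-- the input with support `S` -/
def ind (S : Finset E) : E → Bool := fun e => decide (e ∈ S)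

theorem mix_ind (O Y S : Finset E) (hS : S ⊆ O) (hd : Disjoint Y O) :
    mix O (ind Y) S = ind (Y ∪ S) := by
  funext e
  by_cases he : e ∈ O
  · have : e ∉ Y := fun h => (Finset.disjoint_left.1 hd h he)
    simp [mix, ind, he, this]
  · have : e ∉ S := fun h => he (hS h)
    simp [mix, ind, he, this]

theorem ind_mono {S T : Finset E} (h : S ⊆ T) : ind S ≤ ind T := by
  intro e
  simp only [ind]
  by_cases he : e ∈ S
  · simp [he, h he]
  · simp [he]

/-- a decision tree of depth less than `|O|` does not see the orbit `O` -/
theorem pivot [Fintype E] {k : ℕ} {f : (E → Bool) → Bool} (hmono : Monotone f) (h : DepthLe k f)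
    (Y O : Finset E) (hd : Disjoint Y O) (hO : k < O.card)
    (p : ℕ) [Fact p.Prime] (l : List (Equiv.Perm E)) (hl : Nrm p l) (c : Equiv.Perm E)
    (hc : ∀ S, Fx l S → Fx l (S.map c.toEmbedding))
    (hY : Fx (c :: l) Y) (hOf : Fx (c :: l) O)
    (hf : ∀ a ∈ c :: l, ∀ S : Finset E, f (ind (S.map a.toEmbedding)) = f (ind S))
    (htrans : ∀ S, S ⊆ O → S.Nonempty → Fx (c :: l) S → S = O)
    (htrue : f (ind (Y ∪ O)) = true) : f (ind Y) = true := by
  by_contra hne
  have hY0 : f (ind Y) = false := by simpa using hne
  have hNE : NE O (fun S => f (ind (Y ∪ S)) = false) := by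
    refine ne_congr (ne_of_depth h O hO (ind Y)) fun S hS => ?_
    rw [mix_ind O Y S hS hd]
  obtain ⟨S, hS1, hS2, hS3, hS4⟩ := crit O (fun S => f (ind (Y ∪ S)) = false) (by
      intro S T hST _ hT
      have h1 : f (ind (Y ∪ S)) ≤ f (ind (Y ∪ T)) :=
        hmono (ind_mono (union_subset_union_right hST))
      rw [hT] at h1
      exact le_bot_iff.1 h1) hNE (by simpa using hY0) p l hl c hOf (by
      intro a ha S _ hS
      have : Y ∪ S.map a.toEmbedding = (Y ∪ S).map a.toEmbedding := by
        rw [Finset.map_union, hY a ha]
      show f (ind (Y ∪ S.map a.toEmbedding)) = false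
      rw [this, hf a ha]
      exact hS) hc
  have := htrans S hS1 hS2 hS4
  rw [this, htrue] at hS3
  exact absurd hS3 (by simp)

/-- a decision tree of depth `k` does not see an invariant set `O` all of whose non-empty invariant
subsets have more than `k` elements -/
theorem pivot' [Fintype E] {k : ℕ} {f : (E → Bool) → Bool} (hmono : Monotone f) (h : DepthLe k f)
    (p : ℕ) [Fact p.Prime] (l : List (Equiv.Perm E)) (hl : Nrm p l) (c : Equiv.Perm E)
    (hc : ∀ S, Fx l S → Fx l (S.map c.toEmbedding))
    (hf : ∀ a ∈ c :: l, ∀ S : Finset E, f (ind (S.map a.toEmbedding)) = f (ind S))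
    (n : ℕ) : ∀ (Y O : Finset E), O.card ≤ n → Disjoint Y O →
    Fx (c :: l) Y → Fx (c :: l) O →
    (∀ S, S ⊆ O → S.Nonempty → Fx (c :: l) S → k < S.card) →
    f (ind (Y ∪ O)) = true → f (ind Y) = true := by
  classical
  induction n with
  | zero =>
    intro Y O hn _ _ _ _ htrue
    have : O = ∅ := Finset.card_eq_zero.1 (by omega)
    rwa [this, Finset.union_empty] at htrue
  | succ n ih =>
    intro Y O hn hd hY hOf hbig htrue
    rcases O.eq_empty_or_nonempty with rfl | hOne
    · rwa [Finset.union_empty] at htrue
    have hex : (O.powerset.filter (fun S => S.Nonempty ∧ Fx (c :: l) S)).Nonempty :=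
      ⟨O, by simp [hOne, hOf]⟩
    obtain ⟨T, hT, hmin⟩ := Finset.exists_min_image _ Finset.card hex
    rw [Finset.mem_filter, Finset.mem_powerset] at hT
    obtain ⟨hTO, hTne, hTf⟩ := hT
    have hsd : Fx (c :: l) (O \ T) := by
      intro a ha
      have : (O \ T).map a.toEmbedding = (O.map a.toEmbedding) \ (T.map a.toEmbedding) := by
        ext x
        simp [Finset.mem_map_equiv]
      rw [this, hOf a ha, hTf a ha]
    have hYf : Fx (c :: l) (Y ∪ O \ T) := by
      intro a ha
      rw [Finset.map_union, hY a ha, hsd a ha]
    have h1 : f (ind (Y ∪ O \ T)) = true := by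
      refine pivot hmono h (Y ∪ O \ T) T ?_ (hbig T hTO hTne hTf) p l hl c hc hYf hTf hf ?_ ?_
      · rw [Finset.disjoint_union_left]
        exact ⟨hd.mono_right hTO, Finset.sdiff_disjoint⟩
      · intro S hS hSne hSf
        have h2 := hmin S (by
          rw [Finset.mem_filter, Finset.mem_powerset]
          exact ⟨hS.trans hTO, hSne, hSf⟩)
        exact Finset.eq_of_subset_of_card_le hS h2
      · have : Y ∪ O \ T ∪ T = Y ∪ O := by
          rw [Finset.union_assoc, Finset.sdiff_union_of_subset hTO]
        rw [this]; exact htrue
    refine ih Y (O \ T) ?_ (hd.mono_right Finset.sdiff_subset) hY hsd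
      (fun S hS => hbig S (hS.trans Finset.sdiff_subset)) h1
    have h2 : (O \ T).card + T.card = O.card := Finset.card_sdiff_add_card_eq_card hTO
    have h3 := hTne.card_pos
    omega

end Tree

end Pool.Agent.TH431.GQ
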