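import Mathlib
import Pool.Agent.TH431.GQ.Tree
import Pool.Agent.TH431.GQ.Lin

set_option autoImplicit false

/-!
The action of the stabiliser of `R₀` on the `k`-subspaces `W` with `W ⊔ R₀ = ⊤`, the orbit lemma
and the descent.
-/

namespace Pool.Agent.TH431.GQ

open Finset

section Act

variable {F V : Type} [Field F] [AddCommGroup V] [Module F V]

/-- the subspaces `W` of dimension `k` with `W + R = V` -/
abbrev Gr (R : Submodule F V) (k : ℕ) : Type :=
  {W : Submodule F V // Module.finrank F W = k ∧ W ⊔ R = ⊤}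

/-- the stabiliser of `R` in the general linear group -/
def Stb (R : Submodule F V) : Subgroup (V ≃ₗ[F] V) where
  carrier := {g | R.map (g : V →ₗ[F] V) = R}
  mul_mem' := by
    intro a b ha hb
    simp only [Set.mem_ofPred_eq] at ha hb ⊢
    have : ((a * b : V ≃ₗ[F] V) : V →ₗ[F] V) = (a : V →ₗ[F] V).comp (b : V →ₗ[F] V) := rfl
    rw [this, Submodule.map_comp, hb, ha]
  one_mem' := by
    simp only [Set.mem_ofPred_eq]
    exact Submodule.map_id R
  inv_mem' := by
    intro a ha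
    simp only [Set.mem_ofPred_eq] at ha ⊢
    conv_lhs => rw [← ha]
    rw [← Submodule.map_comp]
    have : ((a⁻¹ : V ≃ₗ[F] V) : V →ₗ[F] V).comp (a : V →ₗ[F] V) = LinearMap.id := by
      ext x
      show (a⁻¹ * a) x = x
      rw [inv_mul_cancel]
      rfl
    rw [this, Submodule.map_id]

theorem map_mul' (a b : V ≃ₗ[F] V) (W : Submodule F V) :
    W.map ((a * b : V ≃ₗ[F] V) : V →ₗ[F] V) = (W.map (b : V →ₗ[F] V)).map (a : V →ₗ[F] V) := by
  rw [← Submodule.map_comp]
  rfl

theorem map_one' (W : Submodule F V) : W.map ((1 : V ≃ₗ[F] V) : V →ₗ[F] V) = W :=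
  Submodule.map_id W

theorem gr_map {R : Submodule F V} {k : ℕ} {g : V ≃ₗ[F] V} (hg : R.map (g : V →ₗ[F] V) = R)
    {W : Submodule F V} (hW : Module.finrank F W = k ∧ W ⊔ R = ⊤) :
    Module.finrank F (W.map (g : V →ₗ[F] V)) = k ∧ W.map (g : V →ₗ[F] V) ⊔ R = ⊤ := by
  refine ⟨?_, ?_⟩
  · rw [← hW.1]
    exact g.finrank_map_eq W
  · conv_lhs => rw [← hg]
    rw [← Submodule.map_sup, hW.2, Submodule.map_top]
    exact LinearMap.range_eq_top.2 g.surjective

instance (R : Submodule F V) (k : ℕ) : MulAction (Stb R) (Gr R k) where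
  smul g W := ⟨W.1.map (g.1 : V →ₗ[F] V), gr_map g.2 W.2⟩
  one_smul W := Subtype.ext (map_one' W.1)
  mul_smul a b W := Subtype.ext (map_mul' a.1 b.1 W.1)

theorem smul_val {R : Submodule F V} {k : ℕ} (g : Stb R) (W : Gr R k) :
    (g • W).1 = W.1.map (g.1 : V →ₗ[F] V) := rfl

theorem map_eq_of_sub {R R' : Submodule F V} (h : R ≤ R') {g : V ≃ₗ[F] V}
    (hg : ∀ w, g w - w ∈ R) : R'.map (g : V →ₗ[F] V) = R' := by
  apply le_antisymm
  · rintro _ ⟨x, hx, rfl⟩
    have : g x = (g x - x) + x := by abel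
    show g x ∈ R'
    rw [this]
    exact R'.add_mem (h (hg x)) hx
  · intro x hx
    refine ⟨g.symm x, ?_, ?_⟩
    · have h1 := h (hg (g.symm x))
      rw [LinearEquiv.apply_symm_apply] at h1
      have := R'.sub_mem hx h1
      simpa using this
    · show g (g.symm x) = x
      exact g.apply_symm_apply x

end Act

section Grp

variable {G E : Type} [Group G] [MulAction G E]

/-- the permutations given by a list of group elements -/
def pl (l : List G) : List (Equiv.Perm E) := l.map (fun g => MulAction.toPerm g)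

theorem map_smul_perm (a b : G) (S : Finset E) :
    (S.map (MulAction.toPerm a : Equiv.Perm E).toEmbedding).map
      (MulAction.toPerm b : Equiv.Perm E).toEmbedding =
    S.map (MulAction.toPerm (b * a) : Equiv.Perm E).toEmbedding := by
  ext x
  simp only [Finset.mem_map_equiv, MulAction.toPerm_symm_apply, mul_inv_rev, mul_smul]

theorem fx_pl {l : List G} {S : Finset E} : Fx (pl l) S ↔
    ∀ a ∈ l, S.map (MulAction.toPerm a : Equiv.Perm E).toEmbedding = S := by
  simp [Fx, pl]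

theorem fx_conj {l : List G} {a : G} (h : ∀ b ∈ l, a⁻¹ * b * a ∈ l) {S : Finset E}
    (hS : Fx (pl l) S) : Fx (pl l) (S.map (MulAction.toPerm a : Equiv.Perm E).toEmbedding) := by
  rw [fx_pl] at hS ⊢
  intro b hb
  have h1 := hS _ (h b hb)
  rw [map_smul_perm]
  have h2 : b * a = a * (a⁻¹ * b * a) := by group
  rw [h2, ← map_smul_perm, h1]

theorem nrm_append (p : ℕ) (l : List G) (hl : Nrm p (pl l : List (Equiv.Perm E))) :
    ∀ A : List G, (∀ a ∈ A, a ^ p = 1) → (∀ a ∈ A, ∀ b ∈ A, a * b = b * a) →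
      (∀ a ∈ A, ∀ b ∈ l, a⁻¹ * b * a ∈ l) → Nrm p (pl (A ++ l) : List (Equiv.Perm E)) := by
  intro A
  induction A with
  | nil => intro _ _ _; exact hl
  | cons a A ih =>
    intro h1 h2 h3
    refine Nrm.cons _ _ (ih (fun b hb => h1 b (List.mem_cons_of_mem _ hb))
      (fun b hb c hc => h2 b (List.mem_cons_of_mem _ hb) c (List.mem_cons_of_mem _ hc))
      (fun b hb => h3 b (List.mem_cons_of_mem _ hb))) ?_ ?_
    · have : (MulAction.toPermHom G E a) ^ p = 1 := by
        rw [← map_pow, h1 a List.mem_cons_self, map_one]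
      exact this
    · intro S hS
      refine fx_conj ?_ hS
      intro b hb
      rcases List.mem_append.1 hb with hb | hb
      · have : a⁻¹ * b * a = b := by
          rw [mul_assoc, h2 b (List.mem_cons_of_mem _ hb) a List.mem_cons_self]
          group
        rw [this]
        exact List.mem_append_left _ hb
      · exact List.mem_append_right _ (h3 a List.mem_cons_self b hb)

end Grp

section Ins

variable {F V : Type} [Field F] [AddCommGroup V] [Module F V]

open Classical in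
/-- the input of all `x` with `P (π x)` -/
noncomputable def pr {R₀ : Submodule F V} {k : ℕ} {X : Type} (π : X → Gr R₀ k)
    (P : Submodule F V → Prop) : X → Bool :=
  fun x => decide (P (π x).1)

theorem pr_congr {R₀ : Submodule F V} {k : ℕ} {X : Type} (π : X → Gr R₀ k)
    {P P' : Submodule F V → Prop}
    (h : ∀ W : Gr R₀ k, P W.1 ↔ P' W.1) : pr π P = pr π P' := by
  funext W
  unfold pr
  exact decide_eq_decide.2 (h _)

theorem pr_mono {R₀ : Submodule F V} {k : ℕ} {X : Type} (π : X → Gr R₀ k)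
    {P P' : Submodule F V → Prop}
    (h : ∀ W : Gr R₀ k, P W.1 → P' W.1) : pr π P ≤ pr π P' := by
  intro W
  simp only [pr]
  by_cases hP : P (π W).1
  · simp [hP, h _ hP]
  · simp [hP]

theorem hyper {S R : Submodule F V} (h : S < R) : ∃ (x : V) (ℓ : V →ₗ[F] F), x ∈ R ∧ ℓ x ≠ 0 ∧
    S ≤ LinearMap.ker ℓ := by
  obtain ⟨x, hx, hxS⟩ := SetLike.exists_of_lt h
  obtain ⟨ℓ, h1, h2⟩ := Submodule.exists_le_ker_of_notMem hxS
  exact ⟨x, ℓ, hx, h1, h2⟩

theorem finrank_hyper [FiniteDimensional F V] {R : Submodule F V} {x : V} {ℓ : V →ₗ[F] F}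
    (hx : x ∈ R) (hℓ : ℓ x ≠ 0) :
    Module.finrank F (R ⊓ LinearMap.ker ℓ : Submodule F V) + 1 = Module.finrank F R := by
  have h1 : (R ⊓ LinearMap.ker ℓ) ⊔ (F ∙ x) = R := by
    apply le_antisymm
    · exact sup_le inf_le_left ((Submodule.span_singleton_le_iff_mem _ _).2 hx)
    · intro r hr
      have : r = (r - (ℓ r / ℓ x) • x) + (ℓ r / ℓ x) • x := by abel
      rw [this]
      refine Submodule.add_mem_sup ⟨R.sub_mem hr (R.smul_mem _ hx), ?_⟩
        (Submodule.smul_mem _ _ (Submodule.mem_span_singleton_self x))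
      show ℓ _ = 0
      rw [map_sub, map_smul, smul_eq_mul, div_mul_cancel₀ _ hℓ, sub_self]
  have h2 : (R ⊓ LinearMap.ker ℓ) ⊓ (F ∙ x) = ⊥ := by
    rw [eq_bot_iff]
    rintro y ⟨⟨_, hy⟩, hy2⟩
    obtain ⟨a, rfl⟩ := Submodule.mem_span_singleton.1 hy2
    have h3 : ℓ (a • x) = 0 := hy
    rw [map_smul, smul_eq_mul, mul_eq_zero] at h3
    rcases h3 with h3 | h3
    · simp [h3]
    · exact absurd h3 hℓ
  have h3 := Submodule.finrank_sup_add_finrank_inf_eq (R ⊓ LinearMap.ker ℓ) (F ∙ x)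
  have hx0 : x ≠ 0 := by
    rintro rfl
    exact hℓ (map_zero ℓ)
  rw [h1, h2, finrank_bot, finrank_span_singleton hx0] at h3
  omega

theorem sup_hyper {R W : Submodule F V} {ℓ : V →ₗ[F] F} (hW : W ⊔ R = ⊤)
    (h : ¬ W ⊓ R ≤ LinearMap.ker ℓ) : W ⊔ (R ⊓ LinearMap.ker ℓ) = ⊤ := by
  obtain ⟨y, hy, hyℓ⟩ := Set.not_subset.1 h
  have hℓ : ℓ y ≠ 0 := hyℓ
  rw [eq_top_iff, ← hW]
  refine sup_le le_sup_left ?_
  intro r hr
  have : r = (ℓ r / ℓ y) • y + (r - (ℓ r / ℓ y) • y) := by abel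
  rw [this]
  refine Submodule.add_mem_sup (W.smul_mem _ hy.1) ⟨R.sub_mem hr (R.smul_mem _ hy.2), ?_⟩
  show ℓ _ = 0
  rw [map_sub, map_smul, smul_eq_mul, div_mul_cancel₀ _ hℓ, sub_self]

theorem finrank_inf [FiniteDimensional F V] {W R : Submodule F V} (h : W ⊔ R = ⊤) :
    Module.finrank F V + Module.finrank F (W ⊓ R : Submodule F V) =
      Module.finrank F W + Module.finrank F R := by
  have := Submodule.finrank_sup_add_finrank_inf_eq W R
  rwa [h, finrank_top] at this

theorem inf_eq_of_one [FiniteDimensional F V] {W W' R : Submodule F V}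
    (h : Module.finrank F (W ⊓ R : Submodule F V) = 1)
    (h' : Module.finrank F (W' ⊓ R : Submodule F V) = 1) {r : V} (hr0 : r ≠ 0) (hr : r ∈ R)
    (hW : r ∈ W) (hW' : r ∈ W') : W ⊓ R = W' ⊓ R := by
  have key : ∀ U : Submodule F V, Module.finrank F (U ⊓ R : Submodule F V) = 1 → r ∈ U →
      (F ∙ r) = U ⊓ R := by
    intro U hU hrU
    apply Submodule.eq_of_le_of_finrank_eq
    · exact (Submodule.span_singleton_le_iff_mem _ _).2 ⟨hrU, hr⟩
    · rw [finrank_span_singleton hr0, hU]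
  rw [← key W h hW, ← key W' h' hW']

variable [Finite F] [FiniteDimensional F V]

/-- the orbit lemma: below depth `q ^ (k (m - k))` the orbit of the subspaces meeting `R` in a
point outside `S` can be removed -/
theorem ins {R₀ : Submodule F V} {k : ℕ} {X : Type} [Finite X] [DecidableEq X]
    [MulAction (Stb R₀) X] (π : X → Gr R₀ k) (hπ : ∀ (g : Stb R₀) (x : X), π (g • x) = g • π x)
    (f : (X → Bool) → Bool) (hmono : Monotone f) {d : ℕ} (hd : DepthLe d f)
    (hsmall : d < Nat.card F ^ (k * (Module.finrank F V - k)))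
    (hinv : ∀ (g : Stb R₀) (x : X → Bool), f (fun W => x (g • W)) = f x)
    {R S : Submodule F V} (hR : Module.finrank F R + k = Module.finrank F V + 1) (hRR₀ : R ≤ R₀)
    (hS : S ≤ R) (B : Submodule F V → Prop)
    (hB : ∀ g : V ≃ₗ[F] V, (∀ w, g w - w ∈ R) → (∀ s ∈ S, g s = s) →
      ∀ W, B W → B (W.map (g : V →ₗ[F] V)))
    (hBR : ∀ W, B W → W ⊔ R ≠ ⊤)
    (h : f (pr π (fun W => B W ∨ W ⊔ R = ⊤)) = true) :
    f (pr π (fun W => B W ∨ (W ⊔ R = ⊤ ∧ W ⊓ S ≠ ⊥))) = true := by
  classical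
  have hVfin : Finite V := Module.finite_of_finite F
  have : Finite (Submodule F V) := Finite.of_injective (fun W : Submodule F V => (W : Set V))
    SetLike.coe_injective
  have : Fintype (Gr R₀ k) := Fintype.ofFinite _
  have : Fintype X := Fintype.ofFinite _
  have hone : ∀ W : Gr R₀ k, W.1 ⊔ R = ⊤ → Module.finrank F (W.1 ⊓ R : Submodule F V) = 1 := by
    intro W hW
    have h1 := finrank_inf hW
    rw [W.2.1] at h1
    omega
  rcases hS.eq_or_lt with rfl | hlt
  · rw [← h]
    congr 1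
    refine pr_congr π fun W => ?_
    constructor
    · rintro (h1 | h1)
      · exact Or.inl h1
      · exact Or.inr h1.1
    · rintro (h1 | h1)
      · exact Or.inl h1
      · refine Or.inr ⟨h1, fun h2 => ?_⟩
        have := hone W h1
        rw [h2, finrank_bot] at this
        omega
  -- the two sets
  set Y : Finset X := univ.filter
    (fun x => B (π x).1 ∨ ((π x).1 ⊔ R = ⊤ ∧ (π x).1 ⊓ S ≠ ⊥)) with hY
  set O : Finset X := univ.filter (fun x => (π x).1 ⊔ R = ⊤ ∧ (π x).1 ⊓ S = ⊥) with hO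
  set OG : Finset (Gr R₀ k) := univ.filter (fun W => W.1 ⊔ R = ⊤ ∧ W.1 ⊓ S = ⊥) with hOG
  have hYp : pr π (fun W => B W ∨ (W ⊔ R = ⊤ ∧ W ⊓ S ≠ ⊥)) = ind Y := by
    funext W
    simp only [pr, ind, hY, Finset.mem_filter, Finset.mem_univ, true_and]
    exact decide_eq_decide.2 Iff.rfl
  have hYO : pr π (fun W => B W ∨ W ⊔ R = ⊤) = ind (Y ∪ O) := by
    funext W
    simp only [pr, ind, hY, hO, Finset.mem_union, Finset.mem_filter, Finset.mem_univ, true_and]
    refine decide_eq_decide.2 ?_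
    tauto
  have hdis : Disjoint Y O := by
    rw [Finset.disjoint_left]
    intro W h1 h2
    rw [hY, Finset.mem_filter] at h1
    rw [hO, Finset.mem_filter] at h2
    rcases h1.2 with h1 | h1
    · exact hBR _ h1 h2.2.1
    · exact h1.2 h2.2.2
  have hcard : d < OG.card := by
    refine lt_of_lt_of_le hsmall ?_
    obtain ⟨x, ℓ, hx, hℓ, hSℓ⟩ := hyper hlt
    have h1 := finrank_hyper hx hℓ
    have h2 := card_compl (R ⊓ LinearMap.ker ℓ) k (by omega)
    refine h2.trans ?_
    have h3 : ∀ W : Submodule F V, IsCompl (R ⊓ LinearMap.ker ℓ) W →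
        (Module.finrank F W = k ∧ W ⊔ R₀ = ⊤) ∧ W ⊔ R = ⊤ ∧ W ⊓ S = ⊥ := by
      intro W hW
      have h4 : W ⊔ (R ⊓ LinearMap.ker ℓ) = ⊤ := by
        rw [sup_comm]; exact codisjoint_iff.1 hW.codisjoint
      have h5 : W ⊔ R = ⊤ := by
        rw [eq_top_iff, ← h4]
        exact sup_le_sup_left inf_le_left _
      have h6 := Submodule.finrank_add_eq_of_isCompl hW
      refine ⟨⟨by omega, ?_⟩, h5, ?_⟩
      · rw [eq_top_iff, ← h5]
        exact sup_le_sup_left hRR₀ _
      · rw [eq_bot_iff, ← disjoint_iff.1 hW.disjoint]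
        exact le_inf (le_inf (inf_le_right.trans hS) (inf_le_right.trans hSℓ)) inf_le_left
    have h4 : Nat.card {W : Submodule F V // IsCompl (R ⊓ LinearMap.ker ℓ) W} ≤ Nat.card OG := by
      refine Nat.card_le_card_of_injective (fun W => ⟨⟨W.1, (h3 W.1 W.2).1⟩, ?_⟩) ?_
      · rw [hOG, Finset.mem_filter]
        exact ⟨Finset.mem_univ _, (h3 W.1 W.2).2⟩
      · intro W W' h
        have := congrArg (fun z : OG => z.1.1) h
        exact Subtype.ext this
    rwa [Nat.card_eq_fintype_card (α := OG), Fintype.card_coe] at h4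
  -- the group
  obtain ⟨p, hp⟩ := CharP.exists F
  have hpp : Fact p.Prime := ⟨(CharP.char_is_prime_or_zero F p).resolve_right (by
    rintro rfl
    have : CharZero F := CharP.charP_to_charZero F
    exact not_finite F)⟩
  have hfinG : Finite (V ≃ₗ[F] V) :=
    Finite.of_injective (fun g : V ≃ₗ[F] V => (g : V → V)) DFunLike.coe_injective
  have hfinS : Finite (Stb R₀) := inferInstance
  have : Fintype (Stb R₀) := Fintype.ofFinite _
  have hS0 : ∀ g : V ≃ₗ[F] V, (∀ w, g w - w ∈ R) → g ∈ Stb R₀ :=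
    fun g hg => map_eq_of_sub hRR₀ hg
  have hAS : ∀ g ∈ Ab S, (∀ w, g w - w ∈ R) ∧ ∀ s ∈ S, g s = s :=
    fun g hg => ⟨fun w => hS (hg.1 w), hg.2⟩
  have hAR : ∀ g ∈ Ab R, (∀ w, g w - w ∈ R) ∧ ∀ s ∈ S, g s = s :=
    fun g hg => ⟨hg.1, fun s hs => hg.2 s (hS hs)⟩
  set LS : List (Stb R₀) := (univ.filter (fun g : Stb R₀ => g.1 ∈ Ab S)).toList with hLS
  set LR : List (Stb R₀) := (univ.filter (fun g : Stb R₀ => g.1 ∈ Ab R)).toList with hLR
  have mLS : ∀ g : Stb R₀, g ∈ LS ↔ g.1 ∈ Ab S := by intro g; simp [hLS]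
  have mLR : ∀ g : Stb R₀, g ∈ LR ↔ g.1 ∈ Ab R := by intro g; simp [hLR]
  obtain ⟨c, hc1, hc2, hc3⟩ := exists_c hS
  let c' : Stb R₀ := ⟨c, hS0 c hc1⟩
  have pres : ∀ g : V ≃ₗ[F] V, (∀ w, g w - w ∈ R) → ∀ x, g x ∈ R ↔ x ∈ R := by
    intro g hg x
    have h1 := hg x
    constructor
    · intro h2
      have := R.sub_mem h2 h1
      simpa using this
    · intro h2
      have := R.add_mem h1 h2
      simpa using this
  have presS : ∀ g : V ≃ₗ[F] V, (∀ s ∈ S, g s = s) → ∀ x, g x ∈ S ↔ x ∈ S := by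
    intro g hg x
    constructor
    · intro h2
      have h3 := hg _ h2
      have h4 := g.injective h3
      rwa [h4] at h2
    · intro h2
      rw [hg x h2]; exact h2
  have hNrm : Nrm p (pl (LS ++ LR) : List (Equiv.Perm X)) := by
    refine nrm_append p LR ?_ LS ?_ ?_ ?_
    · have := nrm_append (G := Stb R₀) (E := X) p [] (by exact Nrm.nil) LR ?_ ?_ ?_
      · simpa using this
      · intro a ha
        exact Subtype.ext (ab_pow_p ((mLR a).1 ha) p)
      · intro a ha b hb
        exact Subtype.ext (ab_comm ((mLR a).1 ha) ((mLR b).1 hb))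
      · intro a _ b hb
        simp at hb
    · intro a ha
      exact Subtype.ext (ab_pow_p ((mLS a).1 ha) p)
    · intro a ha b hb
      exact Subtype.ext (ab_comm ((mLS a).1 ha) ((mLS b).1 hb))
    · intro a ha b hb
      rw [mLR] at hb ⊢
      exact ab_conj (pres a.1 (hAS a.1 ((mLS a).1 ha)).1) hb
  -- all group elements have the two properties
  have hall : ∀ g ∈ c' :: (LS ++ LR), (∀ w, g.1 w - w ∈ R) ∧ ∀ s ∈ S, g.1 s = s := by
    intro g hg
    rcases List.mem_cons.1 hg with rfl | hg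
    · exact ⟨hc1, hc2⟩
    · rcases List.mem_append.1 hg with hg | hg
      · exact hAS _ ((mLS g).1 hg)
      · exact hAR _ ((mLR g).1 hg)
  have hfix : ∀ P : Submodule F V → Prop, (∀ g : V ≃ₗ[F] V, (∀ w, g w - w ∈ R) →
      (∀ s ∈ S, g s = s) → ∀ W, P W → P (W.map (g : V →ₗ[F] V))) →
      ∀ T : Finset X, (∀ x, x ∈ T ↔ P (π x).1) → Fx (pl (c' :: (LS ++ LR))) T := by
    intro P hP T hT
    rw [fx_pl]
    intro g hg
    apply Finset.eq_of_subset_of_card_le
    · intro W hW
      obtain ⟨W', hW', rfl⟩ := Finset.mem_map.1 hW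
      rw [hT] at hW' ⊢
      show P (π (g • W')).1
      rw [hπ]
      exact hP g.1 (hall g hg).1 (hall g hg).2 _ hW'
    · rw [Finset.card_map]
  have hsup : ∀ g : V ≃ₗ[F] V, (∀ w, g w - w ∈ R) → ∀ W : Submodule F V, W ⊔ R = ⊤ →
      W.map (g : V →ₗ[F] V) ⊔ R = ⊤ := by
    intro g hg W hW
    conv_lhs => rw [← map_eq_of_sub le_rfl hg]
    rw [← Submodule.map_sup, hW, Submodule.map_top]
    exact LinearMap.range_eq_top.2 g.surjective
  have hinfne : ∀ g : V ≃ₗ[F] V, (∀ s ∈ S, g s = s) → ∀ W : Submodule F V, W ⊓ S ≠ ⊥ →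
      W.map (g : V →ₗ[F] V) ⊓ S ≠ ⊥ := by
    intro g hg W hW
    obtain ⟨s, hs, hs0⟩ := Submodule.exists_mem_ne_zero_of_ne_bot hW
    intro h1
    have : s ∈ W.map (g : V →ₗ[F] V) ⊓ S := ⟨⟨s, hs.1, hg s hs.2⟩, hs.2⟩
    rw [h1] at this
    exact hs0 this
  have hYf : Fx (pl (c' :: (LS ++ LR))) Y := by
    refine hfix (fun W => B W ∨ (W ⊔ R = ⊤ ∧ W ⊓ S ≠ ⊥)) ?_ _
      (fun W => by rw [hY, Finset.mem_filter]; simp)
    rintro g hg1 hg2 W (h1 | ⟨h1, h2⟩)
    · exact Or.inl (hB g hg1 hg2 W h1)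
    · exact Or.inr ⟨hsup g hg1 W h1, hinfne g hg2 W h2⟩
  have hOf : Fx (pl (c' :: (LS ++ LR))) O := by
    refine hfix (fun W => W ⊔ R = ⊤ ∧ W ⊓ S = ⊥) ?_ _
      (fun W => by rw [hO, Finset.mem_filter]; simp)
    rintro g hg1 hg2 W ⟨h1, h2⟩
    refine ⟨hsup g hg1 W h1, ?_⟩
    rw [eq_bot_iff]
    rintro x ⟨⟨y, hy, rfl⟩, hx⟩
    have h3 : y ∈ S := (presS g hg2 y).1 hx
    have h4 : y ∈ W ⊓ S := ⟨hy, h3⟩
    rw [h2] at h4
    have h5 : y = 0 := h4
    rw [h5]
    show g 0 = 0
    exact map_zero g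
  rw [hYp]
  refine pivot' hmono hd p (pl (LS ++ LR)) hNrm
    (MulAction.toPerm c' : Equiv.Perm X) ?_ ?_ O.card Y O le_rfl hdis hYf hOf ?_
    (by rw [← hYO]; exact h)
  · intro T hT
    refine fx_conj ?_ hT
    intro b hb
    rcases List.mem_append.1 hb with hb | hb
    · refine List.mem_append_left _ ?_
      rw [mLS] at hb ⊢
      exact ab_conj (presS c hc2) hb
    · refine List.mem_append_right _ ?_
      rw [mLR] at hb ⊢
      exact ab_conj (pres c hc1) hb
  · intro a ha T
    obtain ⟨g, -, rfl⟩ := List.mem_map.1 (show a ∈ pl (c' :: (LS ++ LR)) from ha)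
    rw [← hinv g⁻¹ (ind T)]
    congr 1
    funext W
    simp only [ind, Finset.mem_map_equiv, MulAction.toPerm_symm_apply]
  · -- transitivity
    intro T hTO hTne hT
    have hT' : ∀ g ∈ c' :: (LS ++ LR), ∀ W ∈ T.image π, g • W ∈ T.image π := by
      intro g hg W hW
      obtain ⟨x, hx, rfl⟩ := Finset.mem_image.1 hW
      have h1 := (fx_pl.1 (show Fx (pl (c' :: (LS ++ LR))) T from hT)) g hg
      refine Finset.mem_image.2 ⟨g • x, ?_, hπ g x⟩
      rw [← h1]
      exact Finset.mem_map.2 ⟨x, hx, rfl⟩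
    have hTO' : T.image π ⊆ OG := by
      intro W hW
      obtain ⟨x, hx, rfl⟩ := Finset.mem_image.1 hW
      have h1 := hTO hx
      rw [hO, Finset.mem_filter] at h1
      rw [hOG, Finset.mem_filter]
      exact ⟨Finset.mem_univ _, h1.2⟩
    refine lt_of_lt_of_le hcard
      (le_trans (Finset.card_le_card (t := T.image π) ?_) Finset.card_image_le)
    intro W' hW'
    obtain ⟨x0, hx0⟩ := hTne
    have hW : π x0 ∈ T.image π := Finset.mem_image_of_mem _ hx0
    set W := π x0 with hWdef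
    have hWO := hTO' hW
    rw [hOG, Finset.mem_filter] at hWO hW'
    obtain ⟨-, hW1, hW2⟩ := hWO
    obtain ⟨-, hW1', hW2'⟩ := hW'
    have point : ∀ U : Gr R₀ k, U.1 ⊔ R = ⊤ → U.1 ⊓ S = ⊥ → ∃ r ∈ U.1, r ∈ R ∧ r ≠ 0 ∧ r ∉ S := by
      intro U hU1 hU2
      have h1 : (U.1 ⊓ R : Submodule F V) ≠ ⊥ := by
        intro h2
        have := hone U hU1
        rw [h2, finrank_bot] at this
        omega
      obtain ⟨r, hr, hr0⟩ := Submodule.exists_mem_ne_zero_of_ne_bot h1
      refine ⟨r, hr.1, hr.2, hr0, fun hrS => hr0 ?_⟩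
      have : r ∈ U.1 ⊓ S := ⟨hr.1, hrS⟩
      rw [hU2] at this
      exact this
    obtain ⟨r, hrW, hrR, hr0, hrS⟩ := point W hW1 hW2
    obtain ⟨r', hrW', hrR', hr0', hrS'⟩ := point W' hW1' hW2'
    obtain ⟨j, hj⟩ := hc3 r hrR r' hrR' hrS hrS'
    have hcj : ∀ j : ℕ, (c' ^ j) • W ∈ T.image π := by
      intro j
      induction j with
      | zero => simpa using hW
      | succ j ih =>
        rw [pow_succ', mul_smul]
        exact hT' c' List.mem_cons_self _ ih
    have hx : (c ^ j) r ∉ S := by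
      intro h1
      have := S.sub_mem h1 hj
      rw [sub_sub_cancel] at this
      exact hrS' this
    obtain ⟨a, haS, ha⟩ := trans_sub hx (show r' - (c ^ j) r ∈ S by
      have := S.neg_mem hj
      rwa [neg_sub] at this)
    let a' : Stb R₀ := ⟨a, hS0 a (hAS a haS).1⟩
    have h1 : a' • (c' ^ j) • W ∈ T.image π :=
      hT' a' (List.mem_cons_of_mem _ (List.mem_append_left _ ((mLS a').2 haS))) _ (hcj j)
    set W1 := a' • (c' ^ j) • W with hW1def
    have hrW1 : r' ∈ W1.1 := by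
      refine ⟨(c ^ j) r, ?_, ha⟩
      refine ⟨r, hrW, ?_⟩
      rfl
    have hW1O := hTO' h1
    rw [hOG, Finset.mem_filter] at hW1O
    obtain ⟨-, h2, -⟩ := hW1O
    obtain ⟨b, hb, hbW⟩ := trans_ab h2 hW1'
      (inf_eq_of_one (hone W1 h2) (hone W' hW1') hr0' hrR' hrW1 hrW')
      (by rw [W1.2.1, W'.2.1])
    let b' : Stb R₀ := ⟨b, hS0 b (hAR b hb).1⟩
    have h3 : b' • W1 ∈ T.image π :=
      hT' b' (List.mem_cons_of_mem _ (List.mem_append_right _ ((mLR b').2 hb))) _ h1
    have h4 : b' • W1 = W' := Subtype.ext hbW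
    rwa [h4] at h3

/-- the descent -/
theorem descent {R₀ : Submodule F V} {k : ℕ} {X : Type} [Finite X] [DecidableEq X]
    [MulAction (Stb R₀) X] (π : X → Gr R₀ k) (hπ : ∀ (g : Stb R₀) (x : X), π (g • x) = g • π x)
    (f : (X → Bool) → Bool) (hmono : Monotone f) {d : ℕ} (hd : DepthLe d f)
    (hsmall : d < Nat.card F ^ (k * (Module.finrank F V - k)))
    (hinv : ∀ (g : Stb R₀) (x : X → Bool), f (fun W => x (g • W)) = f x) (t : ℕ) :
    ∀ (R Q : Submodule F V), Module.finrank F R + k = Module.finrank F V + 1 + t → R ≤ R₀ →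
      Q ≤ R → ∀ (B : Submodule F V → Prop),
      (∀ g : V ≃ₗ[F] V, (∀ w, g w - w ∈ R) → (∀ s ∈ Q, g s = s) →
        ∀ W, B W → B (W.map (g : V →ₗ[F] V))) →
      (∀ W, B W → W ⊔ R ≠ ⊤) →
      f (pr π (fun W => B W ∨ W ⊔ R = ⊤)) = true →
      ∀ S, Q ≤ S → S ≤ R → f (pr π (fun W => B W ∨ (W ⊔ R = ⊤ ∧ W ⊓ S ≠ ⊥))) = true := by
  induction t with
  | zero =>
    intro R Q hR hRR₀ hQ B hB hBR h S hQS hSR
    exact ins π hπ f hmono hd hsmall hinv (by omega) hRR₀ hSR B
      (fun g h1 h2 => hB g h1 (fun s hs => h2 s (hQS hs))) hBR h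
  | succ t iht =>
    intro R Q hR hRR₀ hQ B hB hBR h
    have main : ∀ u : ℕ, ∀ S, Q ≤ S → S ≤ R → Module.finrank F S + u = Module.finrank F R →
        f (pr π (fun W => B W ∨ (W ⊔ R = ⊤ ∧ W ⊓ S ≠ ⊥))) = true := by
      intro u
      induction u with
      | zero =>
        intro S hQS hSR hu
        have : S = R := Submodule.eq_of_le_of_finrank_eq hSR (by omega)
        subst this
        rw [← h]
        congr 1
        refine pr_congr π fun W => ?_
        constructor
        · rintro (h1 | h1)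
          · exact Or.inl h1
          · exact Or.inr h1.1
        · rintro (h1 | h1)
          · exact Or.inl h1
          · refine Or.inr ⟨h1, fun h2 => ?_⟩
            have h3 := finrank_inf h1
            rw [h2, finrank_bot, W.2.1] at h3
            omega
      | succ u ihu =>
        intro S hQS hSR hu
        have hlt : S < R := lt_of_le_of_ne hSR (by rintro rfl; omega)
        obtain ⟨x, ℓ, hx, hℓ, hSℓ⟩ := hyper hlt
        have hSS : S = (S ⊔ (F ∙ x)) ⊓ LinearMap.ker ℓ := by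
          apply le_antisymm (le_inf le_sup_left hSℓ)
          rintro y ⟨hy1, hy2⟩
          obtain ⟨s, hs, z, hz, rfl⟩ := Submodule.mem_sup.1 hy1
          obtain ⟨a, rfl⟩ := Submodule.mem_span_singleton.1 hz
          have h3 : ℓ (s + a • x) = 0 := hy2
          have h4 : ℓ s = 0 := hSℓ hs
          rw [map_add, h4, map_smul, zero_add, smul_eq_mul, mul_eq_zero] at h3
          rcases h3 with h3 | h3
          · simpa [h3] using hs
          · exact absurd h3 hℓ
        have hx' : x ∈ S ⊔ (F ∙ x) := Submodule.mem_sup_right (Submodule.mem_span_singleton_self x)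
        have hfr : Module.finrank F S + 1 = Module.finrank F (S ⊔ (F ∙ x) : Submodule F V) := by
          have := finrank_hyper hx' hℓ
          rwa [← hSS] at this
        have hSR' : S ⊔ (F ∙ x) ≤ R :=
          sup_le hSR ((Submodule.span_singleton_le_iff_mem _ _).2 hx)
        have h1 := ihu (S ⊔ (F ∙ x)) (hQS.trans le_sup_left) hSR' (by omega)
        have h2 := finrank_hyper hx hℓ
        set R' : Submodule F V := R ⊓ LinearMap.ker ℓ with hR'
        have hSR'' : S ≤ R' := le_inf hSR hSℓ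
        have hR'R : R' ≤ R := inf_le_left
        have htop : ∀ W : Submodule F V, W ⊔ R' = ⊤ → W ⊔ R = ⊤ := by
          intro W hW
          rw [eq_top_iff, ← hW]
          exact sup_le_sup_left hR'R _
        have h3 := iht R' S (by omega) (hR'R.trans hRR₀) hSR''
          (fun W => B W ∨ (W ⊔ R = ⊤ ∧ W ⊔ R' ≠ ⊤ ∧ W ⊓ S ≠ ⊥)) ?_ ?_ ?_ S le_rfl hSR''
        · -- conclusion
          refine eq_true_of_ne_false fun h4 => ?_
          have h5 : f (pr π (fun W => (B W ∨ (W ⊔ R = ⊤ ∧ W ⊔ R' ≠ ⊤ ∧ W ⊓ S ≠ ⊥)) ∨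
              (W ⊔ R' = ⊤ ∧ W ⊓ S ≠ ⊥))) ≤
              f (pr π (fun W => B W ∨ (W ⊔ R = ⊤ ∧ W ⊓ S ≠ ⊥))) := by
            refine hmono (pr_mono π fun W => ?_)
            rintro ((h5 | h5) | h5)
            · exact Or.inl h5
            · exact Or.inr ⟨h5.1, h5.2.2⟩
            · exact Or.inr ⟨htop _ h5.1, h5.2⟩
          rw [h3, h4] at h5
          exact absurd h5 (by decide)
        · -- invariance
          intro g hg1 hg2 W hW
          have hgR : ∀ w, g w - w ∈ R := fun w => hR'R (hg1 w)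
          have hsup : ∀ (M : Submodule F V), R' ≤ M → (W.map (g : V →ₗ[F] V) ⊔ M = ⊤ ↔ W ⊔ M = ⊤) := by
            intro M hM
            have h4 : M.map (g : V →ₗ[F] V) = M := map_eq_of_sub hM hg1
            have h5 : W.map (g : V →ₗ[F] V) ⊔ M = (W ⊔ M).map (g : V →ₗ[F] V) := by
              rw [Submodule.map_sup, h4]
            rw [h5]
            constructor
            · intro h6
              rw [eq_top_iff]
              intro x _
              have : g x ∈ (W ⊔ M).map (g : V →ₗ[F] V) := by rw [h6]; trivial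
              obtain ⟨y, hy, hyx⟩ := this
              have h7 : y = x := g.injective hyx
              rwa [h7] at hy
            · intro h6
              rw [h6, Submodule.map_top]
              exact LinearMap.range_eq_top.2 g.surjective
          rcases hW with hW | ⟨h4, h5, h6⟩
          · exact Or.inl (hB g hgR (fun s hs => hg2 s (hQS hs)) W hW)
          · refine Or.inr ⟨(hsup R hR'R).2 h4, fun h7 => h5 ((hsup R' le_rfl).1 h7), ?_⟩
            obtain ⟨s, hs, hs0⟩ := Submodule.exists_mem_ne_zero_of_ne_bot h6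
            intro h7
            have h8 : s ∈ W.map (g : V →ₗ[F] V) ⊓ S := ⟨⟨s, hs.1, hg2 s hs.2⟩, hs.2⟩
            rw [h7] at h8
            exact hs0 h8
        · -- not above R'
          rintro W (h4 | h4)
          · exact fun h5 => hBR W h4 (htop W h5)
          · exact h4.2.1
        · -- the step up
          refine eq_true_of_ne_false fun h4 => ?_
          have h5 : f (pr π (fun W => B W ∨ (W ⊔ R = ⊤ ∧ W ⊓ (S ⊔ (F ∙ x)) ≠ ⊥))) ≤
              f (pr π (fun W => (B W ∨ (W ⊔ R = ⊤ ∧ W ⊔ R' ≠ ⊤ ∧ W ⊓ S ≠ ⊥)) ∨ W ⊔ R' = ⊤)) := by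
            refine hmono (pr_mono π fun W => ?_)
            rintro (h5 | ⟨h5, h6⟩)
            · exact Or.inl (Or.inl h5)
            · by_cases h7 : W.1 ⊔ R' = ⊤
              · exact Or.inr h7
              · refine Or.inl (Or.inr ⟨h5, h7, ?_⟩)
                have h8 : W.1 ⊓ R ≤ LinearMap.ker ℓ := by
                  by_contra h9
                  exact h7 (sup_hyper h5 h9)
                obtain ⟨s, hs, hs0⟩ := Submodule.exists_mem_ne_zero_of_ne_bot h6
                intro h9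
                have h10 : s ∈ W.1 ⊓ S := by
                  refine ⟨hs.1, ?_⟩
                  rw [hSS]
                  exact ⟨hs.2, h8 ⟨hs.1, hSR' hs.2⟩⟩
                rw [h9] at h10
                exact hs0 h10
          rw [h1, h4] at h5
          exact absurd h5 (by decide)
    intro S hQS hSR
    exact main (Module.finrank F R - Module.finrank F S) S hQS hSR
      (by have := Submodule.finrank_mono hSR; omega)

end Ins

end Pool.Agent.TH431.GQ
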