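import Mathlib
import Pool.Agent.TH431.GQ.Chain
import Pool.Agent.TH541.GQ.Count

set_option autoImplicit false

namespace Pool.Agent.TH431.GQ

open Finset

variable {F V : Type} [Field F] [AddCommGroup V] [Module F V] [Finite F] [FiniteDimensional F V]

theorem final {R₀ : Submodule F V} {k : ℕ} (hR : Module.finrank F V < Module.finrank F R₀ + k)
    {X : Type} [Finite X] [DecidableEq X]
    [MulAction (Stb R₀) X] (π : X → Gr R₀ k) (hπ : ∀ (g : Stb R₀) (x : X), π (g • x) = g • π x)
    (f : (X → Bool) → Bool) (hmono : Monotone f) (hne : ∃ x y, f x ≠ f y)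
    (hinv : ∀ (g : Stb R₀) (x : X → Bool), f (fun W => x (g • W)) = f x)
    {d : ℕ} (hd : DepthLe d f) :
    Nat.card F ^ (k * (Module.finrank F V - k)) ≤ d ∧
      (1 - 1 / (Nat.card F : ℝ) - 1 / (Nat.card F : ℝ) ^ 2) * (Nat.card (Gr R₀ k) : ℝ) ≤ d := by
  classical
  have hV : Finite V := Module.finite_of_finite F
  have hSub : Finite (Submodule F V) := Finite.of_injective (fun W : Submodule F V => (W : Set V))
    SetLike.coe_injective
  have h1 : Nat.card F ^ (k * (Module.finrank F V - k)) ≤ d := by
    by_contra hlt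
    obtain ⟨t, ht⟩ : ∃ t, Module.finrank F R₀ + k = Module.finrank F V + 1 + t :=
      ⟨Module.finrank F R₀ + k - Module.finrank F V - 1, by omega⟩
    have hbot : f (fun _ => false) = false := by
      by_contra h
      have h0 : f (fun _ => false) = true := by simpa using h
      obtain ⟨x, y, hxy⟩ := hne
      have h2 : ∀ z, f z = true := by
        intro z
        have h3 : f (fun _ => false) ≤ f z := hmono (fun e => by simp)
        rw [h0] at h3
        exact top_le_iff.1 h3
      exact hxy ((h2 x).trans (h2 y).symm)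
    have htop : f (fun _ => true) = true := by
      by_contra h
      have h0 : f (fun _ => true) = false := by simpa using h
      obtain ⟨x, y, hxy⟩ := hne
      have h2 : ∀ z, f z = false := by
        intro z
        have h3 : f z ≤ f (fun _ => true) := hmono (fun e => by
          show z e ≤ true
          exact le_top)
        rw [h0] at h3
        exact le_bot_iff.1 h3
      exact hxy ((h2 x).trans (h2 y).symm)
    have h2 := descent π hπ f hmono hd (not_le.1 hlt) hinv t R₀ ⊥ ht le_rfl bot_le
      (fun _ => False) (fun _ _ _ _ h => h) (fun _ h => h.elim) (by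
        rw [← htop]
        congr 1
        funext x
        simp only [pr, false_or]
        exact decide_eq_true (π x).2.2) ⊥ le_rfl bot_le
    have h3 : pr π (fun W => False ∨ (W ⊔ R₀ = ⊤ ∧ W ⊓ ⊥ ≠ ⊥)) = fun _ => false := by
      funext x
      simp [pr]
    rw [h3, hbot] at h2
    exact absurd h2 (by decide)
  refine ⟨h1, ?_⟩
  have hX : Nonempty X := by
    by_contra hX
    rw [not_nonempty_iff] at hX
    obtain ⟨x, y, hxy⟩ := hne
    exact hxy (congrArg f (funext fun a => (hX.false a).elim))
  obtain ⟨x⟩ := hX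
  have hkm : k ≤ Module.finrank F V := by
    rw [← (π x).2.1]
    exact Submodule.finrank_le _
  have h2 := Pool.Agent.TH541.GQ.card_gr F V k hkm
  have hq : 2 ≤ Nat.card F := Finite.one_lt_card
  have hq' : (2 : ℝ) ≤ Nat.card F := by exact_mod_cast hq
  have hc : (0 : ℝ) ≤ 1 - 1 / (Nat.card F : ℝ) - 1 / (Nat.card F : ℝ) ^ 2 := by
    have h4 : 1 / (Nat.card F : ℝ) ≤ 1 / 2 := one_div_le_one_div_of_le (by norm_num) hq'
    have h5 : 1 / (Nat.card F : ℝ) ^ 2 ≤ 1 / 4 := by
      apply one_div_le_one_div_of_le (by norm_num)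
      nlinarith
    linarith
  have h3 : (Nat.card (Gr R₀ k) : ℝ) ≤
      (Nat.card {W : Submodule F V // Module.finrank F W = k} : ℝ) := by
    have : Nat.card (Gr R₀ k) ≤ Nat.card {W : Submodule F V // Module.finrank F W = k} := by
      refine Nat.card_le_card_of_injective (fun W : Gr R₀ k =>
        (⟨W.1, W.2.1⟩ : {W : Submodule F V // Module.finrank F W = k})) ?_
      intro W W' h
      have h4 : W.1 = W'.1 := congrArg
        (fun z : {W : Submodule F V // Module.finrank F W = k} => z.1) h
      exact Subtype.ext h4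
    exact_mod_cast this
  calc (1 - 1 / (Nat.card F : ℝ) - 1 / (Nat.card F : ℝ) ^ 2) * (Nat.card (Gr R₀ k) : ℝ)
      ≤ (1 - 1 / (Nat.card F : ℝ) - 1 / (Nat.card F : ℝ) ^ 2) *
        (Nat.card {W : Submodule F V // Module.finrank F W = k} : ℝ) :=
        mul_le_mul_of_nonneg_left h3 hc
    _ ≤ (Nat.card F : ℝ) ^ (k * (Module.finrank F V - k)) := h2
    _ ≤ d := by exact_mod_cast h1

end Pool.Agent.TH431.GQ
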